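import Pool.Agent.Y489.EN.Stm

set_option autoImplicit false
open Filter Topology MeasureTheory Metric Set
open scoped ENNReal

/-! S_LINE: the length of a curve with a Hajlasz gradient. -/

namespace Pool.Agent.Y764.EN
open Pool.Agent.Y320.CM Pool.Agent.Y489.EN

lemma pick (u : ℝ → ℝ≥0∞) (hu : Measurable u) (a b : ℝ) (hab : a < b) :
    ∃ x ∈ Ioc a b, u x * ENNReal.ofReal (b - a) ≤ ∫⁻ t in Ioc a b, u t := by
  have h0 : volume (Ioc a b) ≠ 0 := by
    rw [Real.volume_Ioc]; simp; exact hab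
  have h1 : volume (Ioc a b) ≠ ∞ := by rw [Real.volume_Ioc]; simp
  obtain ⟨x, hx, h⟩ := exists_le_setLAverage h0 h1 (f := u) hu.aemeasurable
  refine ⟨x, hx, ?_⟩
  rw [setLAverage_eq, Real.volume_Ioc] at h
  exact ENNReal.mul_le_of_le_div h

lemma sumc (u : ℝ → ℝ≥0∞) (a L : ℝ) (hL : 0 < L) (n : ℕ) :
    ∑ j ∈ Finset.range n, ∫⁻ t in Ioc (a + L / 2 ^ (j + 1)) (a + L / 2 ^ j), u t =
      ∫⁻ t in Ioc (a + L / 2 ^ n) (a + L), u t := by
  induction n with
  | zero => simp
  | succ n ih =>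
    rw [Finset.sum_range_succ, ih]
    have h1 : a + L / 2 ^ (n + 1) ≤ a + L / 2 ^ n := by
      rw [pow_succ]
      have : L / (2 ^ n * 2) ≤ L / 2 ^ n := by
        apply div_le_div_of_nonneg_left hL.le (by positivity)
        have : (0 : ℝ) < 2 ^ n := by positivity
        linarith
      linarith
    have h2 : a + L / 2 ^ n ≤ a + L := by
      have : L / 2 ^ n ≤ L := div_le_self hL.le (one_le_pow₀ (by norm_num))
      linarith
    rw [← Ioc_union_Ioc_eq_Ioc h1 h2, lintegral_union measurableSet_Ioc, add_comm]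
    rw [Set.disjoint_left]
    intro x hx hx'
    exact absurd hx.2 (not_le.2 hx'.1)

lemma half (ϱ : Sph → Sph → ℝ) (hϱ : IsMetric ϱ) (f : ℝ → Sph) (u : ℝ → ℝ≥0∞) (a b : ℝ) (hab : a < b)
    (hu : Measurable u) (hf : ContinuousOn f (Icc a b))
    (hD : ∀ s ∈ Icc a b, ∀ t ∈ Icc a b,
      ENNReal.ofReal (ϱ (f s) (f t)) ≤ ENNReal.ofReal |s - t| * (u s + u t)) :
    ∃ x ∈ Icc a b, u x * ENNReal.ofReal (b - a) ≤ 2 * ∫⁻ t in Icc a b, u t ∧
      ENNReal.ofReal (ϱ (f x) (f a)) ≤ 6 * ∫⁻ t in Icc a b, u t := by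
  set L := b - a with hLdef
  have hL : 0 < L := by simp [hLdef, hab]
  have hb : a + L = b := by simp [hLdef]
  have hp : ∀ j : ℕ, (0 : ℝ) < 2 ^ j := fun j => by positivity
  have hlen : ∀ j : ℕ, (a + L / 2 ^ j) - (a + L / 2 ^ (j + 1)) = L / 2 ^ (j + 1) := by
    intro j
    rw [pow_succ]
    field_simp
    ring
  have hlt : ∀ j : ℕ, a + L / 2 ^ (j + 1) < a + L / 2 ^ j := by
    intro j
    have h := hlen j
    have : 0 < L / 2 ^ (j + 1) := by positivity
    linarith
  have hle1 : ∀ j : ℕ, L / 2 ^ j ≤ L := fun j => div_le_self hL.le (one_le_pow₀ (by norm_num))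
  choose x hx hxu using fun j : ℕ => pick u hu (a + L / 2 ^ (j + 1)) (a + L / 2 ^ j) (hlt j)
  have hxI : ∀ j, x j ∈ Icc a b := by
    intro j
    have h1 := (hx j).1
    have h2 := (hx j).2
    have h3 := hle1 j
    have h4 : 0 < L / 2 ^ (j + 1) := by positivity
    exact ⟨by linarith, by linarith⟩
  set c : ℕ → ℝ≥0∞ := fun j => ∫⁻ t in Ioc (a + L / 2 ^ (j + 1)) (a + L / 2 ^ j), u t with hc
  set J := ∫⁻ t in Icc a b, u t with hJ
  have hu1 : ∀ j, u (x j) * ENNReal.ofReal (L / 2 ^ (j + 1)) ≤ c j := by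
    intro j
    have := hxu j
    rwa [hlen j] at this
  have hu2 : ∀ j, ENNReal.ofReal (L / 2 ^ j) * u (x j) ≤ 2 * c j := by
    intro j
    have e : L / 2 ^ j = 2 * (L / 2 ^ (j + 1)) := by
      rw [pow_succ]
      field_simp
    rw [e, ENNReal.ofReal_mul (by norm_num), ENNReal.ofReal_ofNat, mul_assoc]
    gcongr
    rw [mul_comm]
    exact hu1 j
  have hu3 : ∀ j, ENNReal.ofReal (L / 2 ^ j) * u (x (j + 1)) ≤ 4 * c (j + 1) := by
    intro j
    have e : L / 2 ^ j = 2 * (L / 2 ^ (j + 1)) := by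
      rw [pow_succ]
      field_simp
    rw [e, ENNReal.ofReal_mul (by norm_num), ENNReal.ofReal_ofNat, mul_assoc]
    calc 2 * (ENNReal.ofReal (L / 2 ^ (j + 1)) * u (x (j + 1))) ≤ 2 * (2 * c (j + 1)) :=
          mul_le_mul' le_rfl (hu2 (j + 1))
      _ = 4 * c (j + 1) := by rw [← mul_assoc]; norm_num
  have hstep : ∀ j, ENNReal.ofReal (ϱ (f (x j)) (f (x (j + 1)))) ≤ 2 * c j + 4 * c (j + 1) := by
    intro j
    refine (hD _ (hxI j) _ (hxI (j + 1))).trans ?_
    have h1 : |x j - x (j + 1)| ≤ L / 2 ^ j := by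
      have h2 := hx j
      have h3 := hx (j + 1)
      have h4 : 0 < L / 2 ^ (j + 1 + 1) := by positivity
      have h5 : x (j + 1) < x j := lt_of_le_of_lt h3.2 h2.1
      rw [abs_of_pos (by linarith)]
      linarith [h2.2, h3.1]
    calc ENNReal.ofReal |x j - x (j + 1)| * (u (x j) + u (x (j + 1)))
        ≤ ENNReal.ofReal (L / 2 ^ j) * (u (x j) + u (x (j + 1))) := by gcongr
      _ ≤ 2 * c j + 4 * c (j + 1) := by
          rw [mul_add]
          exact add_le_add (hu2 j) (hu3 j)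
  have htri : ∀ p q r : Sph, ENNReal.ofReal (ϱ p r) ≤ ENNReal.ofReal (ϱ p q) + ENNReal.ofReal (ϱ q r) :=
    fun p q r => (ENNReal.ofReal_le_ofReal (hϱ.tri p q r)).trans ENNReal.ofReal_add_le
  have hsum : ∀ n, ENNReal.ofReal (ϱ (f (x 0)) (f (x n))) ≤
      ∑ j ∈ Finset.range n, (2 * c j + 4 * c (j + 1)) := by
    intro n
    induction n with
    | zero => simp [hϱ.self]
    | succ n ih =>
      rw [Finset.sum_range_succ]
      exact (htri _ (f (x n)) _).trans (add_le_add ih (hstep n))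
  have hcs : ∀ n, ∑ j ∈ Finset.range n, c j ≤ J := by
    intro n
    rw [hc, sumc u a L hL n, hb]
    refine lintegral_mono_set ?_
    intro t ht
    have : 0 < L / 2 ^ n := by positivity
    exact ⟨by linarith [ht.1], ht.2⟩
  have hcs' : ∀ n, ∑ j ∈ Finset.range n, c (j + 1) ≤ J := by
    intro n
    refine le_trans ?_ (hcs (n + 1))
    rw [Finset.sum_range_succ']
    exact le_self_add
  have hbd : ∀ n, ENNReal.ofReal (ϱ (f (x 0)) (f (x n))) ≤ 6 * J := by
    intro n
    refine (hsum n).trans ?_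
    rw [Finset.sum_add_distrib, ← Finset.mul_sum, ← Finset.mul_sum]
    calc 2 * ∑ j ∈ Finset.range n, c j + 4 * ∑ j ∈ Finset.range n, c (j + 1) ≤ 2 * J + 4 * J := by
          gcongr
          · exact hcs n
          · exact hcs' n
      _ = 6 * J := by rw [← add_mul]; norm_num
  refine ⟨x 0, hxI 0, ?_, ?_⟩
  · have h1 := hu2 0
    have h2 : c 0 ≤ J := by
      have := hcs 1
      simpa using this
    rw [pow_zero, div_one, mul_comm] at h1
    refine h1.trans ?_
    gcongr
  · have hxa : Tendsto x atTop (𝓝 a) := by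
      have h1 : Tendsto (fun j : ℕ => a + L / 2 ^ j) atTop (𝓝 (a + 0)) := by
        apply Tendsto.const_add
        have := (tendsto_pow_atTop_nhds_zero_of_lt_one (r := (1 / 2 : ℝ)) (by norm_num) (by norm_num)).const_mul L
        rw [mul_zero] at this
        refine this.congr (fun j => ?_)
        rw [one_div, inv_pow, div_eq_mul_inv]
      rw [add_zero] at h1
      refine tendsto_of_tendsto_of_tendsto_of_le_of_le tendsto_const_nhds h1 (fun j => (hxI j).1) (fun j => (hx j).2)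
    have hfa : Tendsto (fun n => f (x n)) atTop (𝓝 (f a)) := by
      have h2 : ContinuousWithinAt f (Icc a b) a := hf a ⟨le_refl a, hab.le⟩
      refine h2.tendsto.comp ?_
      rw [tendsto_nhdsWithin_iff]
      exact ⟨hxa, Eventually.of_forall hxI⟩
    have h3 : Tendsto (fun n => ϱ (f (x 0)) (f (x n))) atTop (𝓝 (ϱ (f (x 0)) (f a))) := by
      have h4 : Continuous fun q : Sph => ϱ (f (x 0)) q := hϱ.cont.comp (Continuous.prodMk_right (f (x 0)))
      exact (h4.tendsto (f a)).comp hfa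
    exact le_of_tendsto (ENNReal.tendsto_ofReal h3) (Eventually.of_forall hbd)

lemma refl_int (u : ℝ → ℝ≥0∞) (a b : ℝ) :
    ∫⁻ t in Icc a b, u (a + b - t) = ∫⁻ t in Icc a b, u t := by
  rw [← lintegral_indicator measurableSet_Icc, ← lintegral_indicator measurableSet_Icc]
  rw [← lintegral_sub_left_eq_self ((Icc a b).indicator u) (a + b)]
  refine lintegral_congr (fun t => ?_)
  by_cases h : t ∈ Icc a b
  · rw [indicator_of_mem h, indicator_of_mem]
    exact ⟨by linarith [h.2], by linarith [h.1]⟩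
  · rw [indicator_of_notMem h, indicator_of_notMem]
    intro h'
    exact h ⟨by linarith [h'.2], by linarith [h'.1]⟩

theorem t_LINE : S_LINE := by
  intro ϱ hϱ f u a b hab hu hf hD
  obtain ⟨x, hx, hxu, hxa⟩ := half ϱ hϱ f u a b hab hu hf hD
  have hmem : ∀ t ∈ Icc a b, a + b - t ∈ Icc a b := fun t ht => ⟨by linarith [ht.2], by linarith [ht.1]⟩
  obtain ⟨y, hy, hyu, hya⟩ := half ϱ hϱ (fun t => f (a + b - t)) (fun t => u (a + b - t)) a b hab
    (hu.comp (measurable_const.sub measurable_id))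
    (hf.comp (by fun_prop) hmem)
    (fun s hs t ht => by
      have := hD _ (hmem s hs) _ (hmem t ht)
      rwa [show a + b - s - (a + b - t) = -(s - t) by ring, abs_neg] at this)
  rw [refl_int] at hyu hya
  set J := ∫⁻ t in Icc a b, u t
  set y' := a + b - y with hy'
  have hy'I := hmem y hy
  have hyb : a + b - a = b := by ring
  rw [hyb] at hya
  have htri : ∀ p q r : Sph, ENNReal.ofReal (ϱ p r) ≤ ENNReal.ofReal (ϱ p q) + ENNReal.ofReal (ϱ q r) :=
    fun p q r => (ENNReal.ofReal_le_ofReal (hϱ.tri p q r)).trans ENNReal.ofReal_add_le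
  have hmid : ENNReal.ofReal (ϱ (f x) (f y')) ≤ 4 * J := by
    refine (hD x hx y' hy'I).trans ?_
    have h1 : |x - y'| ≤ b - a := by
      rw [abs_le]
      constructor <;> linarith [hx.1, hx.2, hy'I.1, hy'I.2]
    calc ENNReal.ofReal |x - y'| * (u x + u y') ≤ ENNReal.ofReal (b - a) * (u x + u y') := by gcongr
      _ = u x * ENNReal.ofReal (b - a) + u y' * ENNReal.ofReal (b - a) := by ring
      _ ≤ 2 * J + 2 * J := add_le_add hxu hyu
      _ = 4 * J := by rw [← add_mul]; norm_num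
  calc ENNReal.ofReal (ϱ (f a) (f b)) ≤ ENNReal.ofReal (ϱ (f a) (f x)) + ENNReal.ofReal (ϱ (f x) (f b)) := htri _ _ _
    _ ≤ ENNReal.ofReal (ϱ (f a) (f x)) + (ENNReal.ofReal (ϱ (f x) (f y')) + ENNReal.ofReal (ϱ (f y') (f b))) := by
        gcongr
        exact htri _ _ _
    _ ≤ 6 * J + (4 * J + 6 * J) := by
        refine add_le_add ?_ (add_le_add hmid hya)
        rw [hϱ.symm]
        exact hxa
    _ = 16 * J := by rw [← add_mul, ← add_mul]; norm_num
    _ ≤ 20 * J := by gcongr; norm_num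

end Pool.Agent.Y764.EN
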